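import Pool.Agent.Y860.OG.Fin

set_option autoImplicit false

namespace Pool.Agent.Results.MP_1babb5_al.PowersCounterexample

open Pool.Agent.H67R4.OG Pool.Agent.Y860.OG

/-- Let `k ≥ 3` and `w(n₁, …, n_k) = x₁ ^ n₁ ⋯ x_k ^ n_k`.

1. For all positive exponents the growth of the set of the cyclic words in the automorphic orbit of
   `w(n₁, …, n_k)` is at least the square root of `2k - 3`.
2. If a prime power `p ^ a` divides all exponents exactly, then `p ^ a ≤ μ(w) ≤ n x` for every letter `x`, for both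
   readings of the definition of `μ` (all elements or only cyclically reduced elements of the
   orbit).
3. For every `n ≥ 3` the word `x₁ ^ n ⋯ x_k ^ n` violates the conjectured formula
   `growth = (2k - 3) ^ (1 / μ(w))`.
4. For prime powers `q` both words `x₁ ^ q ⋯ x_k ^ q` and `x₁ ^ q` have `μ = q` (for the second
   word in the reading with cyclically reduced elements).
5. For `n ≥ 4` the growth of the orbit of `x₁ ^ n` is at most `(2k) ^ (1 / n)`, which is smaller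
   than the square root of `2k - 3`; in the literal reading `μ(x₁ ^ n) = 2`.
6. For every function `f` there is a word `w ≠ 1` whose growth is not `f (μ(w))`: no formula in
   terms of `k` and `μ` only can be correct. -/
theorem result (k : ℕ) (hk : 3 ≤ k) :
    (∀ n : Fin k → ℕ, (∀ i, 0 < n i) → pw n ≠ 1 ∧ Real.sqrt (2 * k - 3) ≤ growth (pw n)) ∧
    (∀ (p a : ℕ) (n : Fin k → ℕ), p.Prime → (∀ i, 0 < n i) →
      (∀ i, p ^ a ∣ n i ∧ ¬ p ^ (a + 1) ∣ n i) → ∀ x,
        (p ^ a ≤ mu x (pw n) ∧ mu x (pw n) ≤ n x) ∧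
        (p ^ a ≤ muCyc x (pw n) ∧ muCyc x (pw n) ≤ n x)) ∧
    (∀ n : ℕ, 3 ≤ n → ∀ x : Fin k,
      (2 * (k : ℝ) - 3) ^ ((1 : ℝ) / (mu x (pw fun _ : Fin k => n) : ℝ)) <
        growth (pw fun _ : Fin k => n) ∧
      (2 * (k : ℝ) - 3) ^ ((1 : ℝ) / (muCyc x (pw fun _ : Fin k => n) : ℝ)) <
        growth (pw fun _ : Fin k => n)) ∧
    (∀ q : ℕ, IsPrimePow q → ∀ x y : Fin k, mu x (pw fun _ : Fin k => q) = q ∧
      muCyc x (pw fun _ : Fin k => q) = q ∧ muCyc x (FreeGroup.of y ^ q) = q) ∧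
    (∀ n : ℕ, 4 ≤ n → ∀ x y : Fin k, mu x (FreeGroup.of y ^ n) = 2 ∧
      muCyc x (FreeGroup.of y ^ n) = n ∧
      growth (FreeGroup.of y ^ n) ≤ (2 * (k : ℝ)) ^ ((1 : ℝ) / n) ∧
      (2 * (k : ℝ)) ^ ((1 : ℝ) / n) < Real.sqrt (2 * k - 3)) ∧
    (∀ f : ℕ → ℝ, ∃ w : FreeGroup (Fin k), w ≠ 1 ∧ ∀ x, growth w ≠ f (muCyc x w)) :=
  main hk

end Pool.Agent.Results.MP_1babb5_al.PowersCounterexample
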